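import Pool.Agent.R825.LmpSpaces

/-!
# MP_e518dc_lc: logically equivalent states need not be related by a ⊕-bisimulation

For every nonempty set `L` of labels we construct, in ZFC, two labelled Markov processes over `L`
and logically equivalent states of them that no ⊕-bisimulation relates.  Both state spaces have
countably generated, point-separating σ-algebras, i.e. they are (isomorphic to) subsets of the real
line with their Borel σ-algebras.

The processes: let `V` and `Vᶜ` be complementary subsets of `[0,1]`, both meeting every Borel set of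
positive Lebesgue measure.  The first process has a root and the points of `V`; the root jumps into
`V` according to the trace of Lebesgue measure, and a point `x` returns to the root with
probability `x / 2`.  The second process is the same with `Vᶜ` in place of `V`.
-/

open MeasureTheory Set ProbabilityTheory
open scoped ENNReal unitInterval

namespace Pool.Agent.Results.MP_e518dc_lc.LogicNotOplus

/-- A labelled Markov process over the label set `L`: a measurable space, and for every label a
kernel with values in the subprobability measures. -/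
structure LMP (L : Type) : Type 1 where
  /-- the state space -/
  carrier : Type
  /-- its σ-algebra -/
  ms : MeasurableSpace carrier
  /-- the transition kernels -/
  tau : L → @Kernel carrier carrier ms ms
  /-- the kernels take values in the subprobability measures -/
  le_one : ∀ (a : L) (s : carrier), tau a s Set.univ ≤ 1

/-- The formulas `⊤ ∣ φ ∧ ψ ∣ ⟨a⟩_{≥ q} φ` with `q` rational in `[0,1]`. -/
inductive Formula (L : Type) : Type
  /-- truth -/
  | top : Formula L
  /-- conjunction -/
  | and (φ ψ : Formula L) : Formula L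
  /-- modality -/
  | dia (a : L) (q : ℚ) (hq : 0 ≤ q ∧ q ≤ 1) (φ : Formula L) : Formula L

/-- The set of states satisfying a formula. -/
def sem {L : Type} (S : LMP L) : Formula L → Set S.carrier
  | .top => Set.univ
  | .and φ ψ => sem S φ ∩ sem S ψ
  | .dia a q _ φ => {s | ENNReal.ofReal (q : ℝ) ≤ S.tau a s (sem S φ)}

/-- Logical equivalence of states: they satisfy the same formulas. -/
def LogEquiv {L : Type} (S S' : LMP L) (s : S.carrier) (s' : S'.carrier) : Prop :=
  ∀ φ : Formula L, s ∈ sem S φ ↔ s' ∈ sem S' φ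

/-- Membership in the σ-algebra of the sum. -/
def SumMeasurable {L : Type} (S S' : LMP L) (A : Set (S.carrier ⊕ S'.carrier)) : Prop :=
  MeasurableSet[S.ms] (Sum.inl ⁻¹' A) ∧ MeasurableSet[S'.ms] (Sum.inr ⁻¹' A)

/-- The transition function of the sum. -/
noncomputable def sumTau {L : Type} (S S' : LMP L) (a : L) (x : S.carrier ⊕ S'.carrier)
    (A : Set (S.carrier ⊕ S'.carrier)) : ℝ≥0∞ :=
  Sum.elim (fun s => S.tau a s (Sum.inl ⁻¹' A)) (fun s' => S'.tau a s' (Sum.inr ⁻¹' A)) x

/-- `R`-closed sets. -/
def RClosed {X : Type} (R : X → X → Prop) (A : Set X) : Prop :=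
  ∀ x y, (R x y ∨ R y x) → y ∈ A → x ∈ A

/-- ⊕-bisimulations: equivalence relations on the sum for which related points of different
summands give the same probability to all measurable closed sets. -/
def OplusBisim {L : Type} (S S' : LMP L)
    (R : S.carrier ⊕ S'.carrier → S.carrier ⊕ S'.carrier → Prop) : Prop :=
  Equivalence R ∧ ∀ x y, R x y → x.isLeft ≠ y.isLeft →
    ∀ (a : L) (A : Set (S.carrier ⊕ S'.carrier)), SumMeasurable S S' A → RClosed R A →
      sumTau S S' a x A = sumTau S S' a y A

lemma measurableSet_sem {L : Type} (S : LMP L) (φ : Formula L) :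
    MeasurableSet[S.ms] (sem S φ) := by
  let _ := S.ms
  induction φ with
  | top => exact MeasurableSet.univ
  | and φ ψ h1 h2 => exact h1.inter h2
  | dia a q hq φ h =>
    exact measurableSet_le measurable_const ((S.tau a).measurable_coe h)

/-- A subset of `[0,1]` is thick if it meets all Borel sets of positive measure. -/
def Thick (V : Set I) : Prop := ∀ D : Set I, MeasurableSet D → volume D ≠ 0 → ∃ p ∈ V, p ∈ D

theorem exists_thick : ∃ V : Set I, Thick V ∧ Thick Vᶜ := by
  have hnt : Nontrivial Pool.Agent.R825.Lmp.Om := by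
    rw [← not_subsingleton_iff_nontrivial]
    intro hs
    exact Pool.Agent.R825.Lmp.not_countable_univ Set.countable_univ
  obtain ⟨k1, k2, hk⟩ := exists_pair_ne Pool.Agent.R825.Lmp.Om
  have key : ∀ k : Pool.Agent.R825.Lmp.Om, ∀ D : Set I, MeasurableSet D → volume D ≠ 0 →
      ∃ p, Pool.Agent.R825.Lmp.kk p = k ∧ p ∈ D := by
    intro k D hD h
    obtain ⟨p, hp, hp'⟩ := Pool.Agent.R825.Lmp.thick k (D ×ˢ Set.univ) (hD.prod MeasurableSet.univ)
      (by
        unfold Pool.Agent.R825.Lmp.MM
        rw [Measure.prod_prod]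
        simpa using h)
    exact ⟨p, hp, hp'.1⟩
  refine ⟨{p | Pool.Agent.R825.Lmp.kk p = k1}, key k1, fun D hD h => ?_⟩
  obtain ⟨p, hp, hp'⟩ := key k2 D hD h
  refine ⟨p, ?_, hp'⟩
  simp only [Set.mem_compl_iff, Set.mem_ofPred_eq, hp]
  exact hk.symm

/-- The trace of Lebesgue measure on a thick set. -/
lemma exists_trace (V : Set I) (hV : Thick V) :
    ∃ ν : Measure V, ∀ D : Set I, MeasurableSet D → ν (Subtype.val ⁻¹' D) = volume D := by
  refine Pool.Agent.R825.Lmp.exists_pullback (Subtype.val : V → I) volume ?_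
  intro D hD he
  by_contra h
  obtain ⟨p, hp, hp'⟩ := hV D hD h
  have : (⟨p, hp⟩ : V) ∈ (Subtype.val ⁻¹' D : Set V) := hp'
  rw [he] at this
  exact this

/-- The trace of Lebesgue measure on a thick set. -/
noncomputable def nu (V : Set I) (hV : Thick V) : Measure V := (exists_trace V hV).choose

lemma nu_apply (V : Set I) (hV : Thick V) {D : Set I} (hD : MeasurableSet D) :
    nu V hV (Subtype.val ⁻¹' D) = volume D := (exists_trace V hV).choose_spec D hD

lemma nu_univ (V : Set I) (hV : Thick V) : nu V hV Set.univ = 1 := by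
  have := nu_apply V hV MeasurableSet.univ
  simpa using this

/-- Return probabilities. -/
noncomputable def half (p : I) : ℝ≥0∞ := ENNReal.ofReal ((p : ℝ) / 2)

lemma measurable_half : Measurable half := (measurable_subtype_coe.div_const 2).ennreal_ofReal

lemma half_lt (p : I) : half p < 1 := by
  unfold half
  rw [← ENNReal.ofReal_one]
  refine (ENNReal.ofReal_lt_ofReal_iff one_pos).2 ?_
  have := p.2.2
  linarith

lemma half_inj {p q : I} (h : half p = half q) : p = q := by
  unfold half at h
  have h1 := p.2.1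
  have h2 := q.2.1
  have := (ENNReal.ofReal_eq_ofReal_iff (by linarith) (by linarith)).1 h
  exact Subtype.ext (by linarith)

/-- The transition function of the process. -/
noncomputable def fn (V : Set I) (hV : Thick V) : Unit ⊕ V → Measure (Unit ⊕ V) :=
  Sum.elim (fun _ => (nu V hV).map Sum.inr) (fun x => half x.1 • Measure.dirac (Sum.inl ()))

lemma measurable_fn (V : Set I) (hV : Thick V) : Measurable (fn V hV) := by
  refine Measurable.sumElim measurable_const ?_
  refine Measure.measurable_of_measurable_coe _ fun A hA => ?_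
  simp only [Measure.smul_apply, smul_eq_mul]
  exact (measurable_half.comp measurable_subtype_coe).mul_const _

lemma fn_root (V : Set I) (hV : Thick V) {A : Set (Unit ⊕ V)} (hA : MeasurableSet A) :
    fn V hV (Sum.inl ()) A = nu V hV (Sum.inr ⁻¹' A) := by
  change ((nu V hV).map Sum.inr) A = _
  rw [Measure.map_apply measurable_inr hA]

lemma fn_point (V : Set I) (hV : Thick V) {A : Set (Unit ⊕ V)} (hA : MeasurableSet A) (x : V) :
    fn V hV (Sum.inr x) A = half x.1 * A.indicator 1 (Sum.inl ()) := by
  change (half x.1 • Measure.dirac (Sum.inl ())) A = _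
  rw [Measure.smul_apply, Measure.dirac_apply' _ hA, smul_eq_mul]

open Classical in
lemma fn_point' (V : Set I) (hV : Thick V) {A : Set (Unit ⊕ V)} (hA : MeasurableSet A) (x : V)
    {b : Prop} (hb : (Sum.inl () : Unit ⊕ V) ∈ A ↔ b) :
    fn V hV (Sum.inr x) A = half x.1 * (if b then 1 else 0) := by
  rw [fn_point V hV hA, Set.indicator_apply, Pi.one_apply]
  congr 1
  exact if_congr hb rfl rfl

/-- The process on a root and a thick set. -/
noncomputable def proc (L : Type) (V : Set I) (hV : Thick V) : LMP L where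
  carrier := Unit ⊕ V
  ms := inferInstance
  tau _ := ⟨fn V hV, measurable_fn V hV⟩
  le_one := by
    rintro - (_ | x)
    · change fn V hV (Sum.inl ()) Set.univ ≤ 1
      rw [fn_root V hV MeasurableSet.univ, Set.preimage_univ, nu_univ]
    · change fn V hV (Sum.inr x) Set.univ ≤ 1
      rw [fn_point V hV MeasurableSet.univ]
      simpa using (half_lt x.1).le

/-- The root. -/
noncomputable def root (L : Type) (V : Set I) (hV : Thick V) : (proc L V hV).carrier :=
  (Sum.inl () : Unit ⊕ V)

/-- The formulas have the same meaning in all these processes. -/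
lemma sem_proc (L : Type) (φ : Formula L) : ∃ (C : Set I) (b : Prop), MeasurableSet C ∧
    ∀ (V : Set I) (hV : Thick V),
      (((Sum.inl () : Unit ⊕ V) ∈ (sem (proc L V hV) φ : Set (Unit ⊕ V))) ↔ b) ∧
      ∀ x : V, ((Sum.inr x : Unit ⊕ V) ∈ (sem (proc L V hV) φ : Set (Unit ⊕ V))) ↔ x.1 ∈ C := by
  classical
  induction φ with
  | top => exact ⟨Set.univ, True, MeasurableSet.univ, fun V hV =>
      ⟨iff_true_intro (Set.mem_univ _), fun x =>
        ⟨fun _ => Set.mem_univ _, fun _ => Set.mem_univ _⟩⟩⟩
  | and φ ψ h1 h2 =>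
    obtain ⟨C, b, hC, h1⟩ := h1
    obtain ⟨C', b', hC', h2⟩ := h2
    refine ⟨C ∩ C', b ∧ b', hC.inter hC', fun V hV => ⟨?_, fun x => ?_⟩⟩
    · exact and_congr (h1 V hV).1 (h2 V hV).1
    · exact and_congr ((h1 V hV).2 x) ((h2 V hV).2 x)
  | dia a q hq φ h =>
    obtain ⟨C, b, hC, h⟩ := h
    refine ⟨{p | ENNReal.ofReal (q : ℝ) ≤ half p * (if b then 1 else 0)},
      ENNReal.ofReal (q : ℝ) ≤ volume C,
      measurableSet_le measurable_const (measurable_half.mul_const _), fun V hV => ⟨?_, fun x => ?_⟩⟩
    · have hm : MeasurableSet[(inferInstance : MeasurableSpace (Unit ⊕ V))]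
          (sem (proc L V hV) φ : Set (Unit ⊕ V)) := measurableSet_sem _ φ
      have e : (Sum.inr ⁻¹' (sem (proc L V hV) φ : Set (Unit ⊕ V)) : Set V)
          = Subtype.val ⁻¹' C := by
        ext x
        exact (h V hV).2 x
      change ENNReal.ofReal (q : ℝ) ≤ fn V hV (Sum.inl ()) (sem (proc L V hV) φ) ↔ _
      rw [fn_root V hV hm, e, nu_apply V hV hC]
    · have hm : MeasurableSet[(inferInstance : MeasurableSpace (Unit ⊕ V))]
          (sem (proc L V hV) φ : Set (Unit ⊕ V)) := measurableSet_sem _ φ
      change ENNReal.ofReal (q : ℝ) ≤ fn V hV (Sum.inr x) (sem (proc L V hV) φ) ↔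
        ENNReal.ofReal (q : ℝ) ≤ half x.1 * (if b then 1 else 0)
      rw [fn_point' V hV hm x (h V hV).1]

theorem logEquiv_roots (L : Type) (V W : Set I) (hV : Thick V) (hW : Thick W) :
    LogEquiv (proc L V hV) (proc L W hW) (root L V hV) (root L W hW) := by
  intro φ
  obtain ⟨C, b, -, h⟩ := sem_proc L φ
  exact (h V hV).1.trans (h W hW).1.symm

theorem not_oplus (L : Type) (a : L) (V : Set I) (hV : Thick V) (hW : Thick Vᶜ)
    (R : (Unit ⊕ V) ⊕ (Unit ⊕ (Vᶜ : Set I)) → (Unit ⊕ V) ⊕ (Unit ⊕ (Vᶜ : Set I)) → Prop)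
    (hR : OplusBisim (proc L V hV) (proc L Vᶜ hW) R)
    (hrr : R (Sum.inl (Sum.inl ())) (Sum.inr (Sum.inl ()))) : False := by
  obtain ⟨he, ht⟩ := hR
  -- total masses of cross-related states agree
  have hu : ∀ (x : Unit ⊕ V) (y : Unit ⊕ (Vᶜ : Set I)), R (Sum.inl x) (Sum.inr y) →
      fn V hV x Set.univ = fn Vᶜ hW y Set.univ := by
    intro x y hxy
    have := ht (Sum.inl x) (Sum.inr y) hxy Bool.noConfusion a Set.univ
      ⟨@MeasurableSet.univ _ (proc L V hV).ms, @MeasurableSet.univ _ (proc L Vᶜ hW).ms⟩
      (fun _ _ _ _ => Set.mem_univ _)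
    exact this
  -- no point of `V` is related to the other process
  have hx : ∀ (x : V) (y : Unit ⊕ (Vᶜ : Set I)), ¬ R (Sum.inl (Sum.inr x)) (Sum.inr y) := by
    intro x y hxy
    have h1 := hu _ _ hxy
    rw [fn_point V hV MeasurableSet.univ] at h1
    rcases y with _ | y
    · rw [fn_root Vᶜ hW MeasurableSet.univ, Set.preimage_univ, nu_univ] at h1
      have := half_lt x.1
      simp only [Set.indicator_univ, Pi.one_apply, mul_one] at h1
      exact absurd h1 this.ne
    · rw [fn_point Vᶜ hW MeasurableSet.univ] at h1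
      simp only [Set.indicator_univ, Pi.one_apply, mul_one] at h1
      have := half_inj h1
      exact y.2 (this ▸ x.2)
  -- the test set
  let A : Set ((Unit ⊕ V) ⊕ (Unit ⊕ (Vᶜ : Set I))) := Sum.inl '' Set.range Sum.inr
  have hA1 : (Sum.inl ⁻¹' A : Set (Unit ⊕ V)) = Set.range Sum.inr :=
    Set.preimage_image_eq _ Sum.inl_injective
  have hA2 : (Sum.inr ⁻¹' A : Set (Unit ⊕ (Vᶜ : Set I))) = ∅ := by
    ext y
    simp [A]
  have hAm : SumMeasurable (proc L V hV) (proc L Vᶜ hW) A := by
    constructor
    · change MeasurableSet (Sum.inl ⁻¹' A : Set (Unit ⊕ V))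
      rw [hA1]
      exact measurableSet_range_inr
    · change MeasurableSet (Sum.inr ⁻¹' A : Set (Unit ⊕ (Vᶜ : Set I)))
      rw [hA2]
      exact MeasurableSet.empty
  have hAc : RClosed R A := by
    rintro x y hxy ⟨_, ⟨v, rfl⟩, rfl⟩
    have hyx : R (Sum.inl (Sum.inr v)) x := by
      rcases hxy with h | h
      · exact he.symm h
      · exact h
    rcases x with (_ | w) | x
    · exact absurd (he.trans hyx hrr) (hx v _)
    · exact ⟨Sum.inr w, ⟨w, rfl⟩, rfl⟩
    · exact absurd hyx (hx v x)
  have h := ht _ _ hrr Bool.noConfusion a A hAm hAc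
  have h' : fn V hV (Sum.inl ()) (Sum.inl ⁻¹' A) = fn Vᶜ hW (Sum.inl ()) (Sum.inr ⁻¹' A) := h
  rw [hA1, hA2, measure_empty, fn_root V hV measurableSet_range_inr, Set.preimage_range,
    nu_univ] at h'
  exact one_ne_zero h'

/-- The σ-algebra of the process is that of a subset of the real line. -/
lemma comap_eq (V : Set I) : MeasurableSpace.comap
    (Sum.elim (fun _ => 2) (fun x => (x.1 : ℝ)) : Unit ⊕ V → ℝ) inferInstance
      = (inferInstance : MeasurableSpace (Unit ⊕ V)) := by
  classical
  have hj : Measurable (Sum.elim (fun _ => 2) (fun x => (x.1 : ℝ)) : Unit ⊕ V → ℝ) :=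
    Measurable.sumElim measurable_const (measurable_subtype_coe.comp measurable_subtype_coe)
  refine le_antisymm (measurable_iff_comap_le.1 hj) ?_
  intro A hA
  obtain ⟨D, hD, hDA⟩ : MeasurableSet (Sum.inr ⁻¹' A : Set V) := measurable_inr hA
  obtain ⟨E, hE, hED⟩ := hD
  refine ⟨(E ∩ Set.Icc 0 1) ∪ (if Sum.inl () ∈ A then {2} else ∅),
    (hE.inter measurableSet_Icc).union ?_, ?_⟩
  · split_ifs
    · exact measurableSet_singleton _
    · exact MeasurableSet.empty
  · ext x
    rcases x with u | x
    · obtain rfl : u = () := rfl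
      by_cases h : (Sum.inl () : Unit ⊕ V) ∈ A <;> simp [h]
    · have h1 : (Sum.inr x : Unit ⊕ V) ∈ A ↔ (x.1 : ℝ) ∈ E := by
        have h2 : x ∈ (Sum.inr ⁻¹' A : Set V) ↔ x ∈ (Subtype.val ⁻¹' D : Set V) := by rw [hDA]
        rw [Set.mem_preimage, Set.mem_preimage, ← hED, Set.mem_preimage] at h2
        exact h2
      have h3 : (x.1 : ℝ) ≠ 2 := fun h => by
        have := x.1.2.2
        linarith
      have h4 : (x.1 : ℝ) ∈ Set.Icc (0 : ℝ) 1 := x.1.2
      by_cases h : (Sum.inl () : Unit ⊕ V) ∈ A <;>
        simp only [h, if_true, if_false, Set.mem_preimage, Set.mem_union, Set.mem_inter_iff,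
          Set.mem_singleton_iff, Set.mem_empty_iff_false, Sum.elim_inr, h1, h3, h4, and_true,
          or_false]

lemma countablyGenerated_proc (V : Set I) :
    MeasurableSpace.CountablyGenerated (Unit ⊕ V) := by
  have h := MeasurableSpace.CountablyGenerated.comap
    (Sum.elim (fun _ => 2) (fun x => (x.1 : ℝ)) : Unit ⊕ V → ℝ)
  have e := comap_eq V
  unfold inferInstance at e
  rw [e] at h
  exact h

lemma separatesPoints_proc (V : Set I) :
    MeasurableSpace.SeparatesPoints (Unit ⊕ V) := by
  have hj : Measurable (Sum.elim (fun _ => 2) (fun x => (x.1 : ℝ)) : Unit ⊕ V → ℝ) :=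
    Measurable.sumElim measurable_const (measurable_subtype_coe.comp measurable_subtype_coe)
  refine ⟨fun x y h => ?_⟩
  have h2 : ∀ z : V, (z.1 : ℝ) ≠ 2 := fun z h => by
    have := z.1.2.2
    linarith
  have key : (Sum.elim (fun _ => 2) (fun x => (x.1 : ℝ)) : Unit ⊕ V → ℝ) x =
      (Sum.elim (fun _ => 2) (fun x => (x.1 : ℝ)) : Unit ⊕ V → ℝ) y := by
    have := h _ (hj (measurableSet_singleton
      ((Sum.elim (fun _ => 2) (fun x => (x.1 : ℝ)) : Unit ⊕ V → ℝ) x))) rfl
    exact (Set.mem_singleton_iff.1 this).symm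
  rcases x with x | x <;> rcases y with y | y
  · rfl
  · exact absurd key.symm (h2 y)
  · exact absurd key (h2 x)
  · exact congrArg _ (Subtype.ext (Subtype.ext key))

/-- **Answer to Q1 (negative).** For every nonempty label set there are two labelled Markov
processes, on countably generated point-separating measurable spaces, and logically equivalent
states that no ⊕-bisimulation relates. -/
theorem result (L : Type) [Nonempty L] : ∃ (S S' : LMP L) (s : S.carrier) (s' : S'.carrier),
    @MeasurableSpace.CountablyGenerated S.carrier S.ms ∧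
    @MeasurableSpace.SeparatesPoints S.carrier S.ms ∧
    @MeasurableSpace.CountablyGenerated S'.carrier S'.ms ∧
    @MeasurableSpace.SeparatesPoints S'.carrier S'.ms ∧
    LogEquiv S S' s s' ∧
    ¬ ∃ R : S.carrier ⊕ S'.carrier → S.carrier ⊕ S'.carrier → Prop,
      OplusBisim S S' R ∧ R (Sum.inl s) (Sum.inr s') := by
  obtain ⟨V, hV, hW⟩ := exists_thick
  obtain ⟨a⟩ := ‹Nonempty L›
  refine ⟨proc L V hV, proc L Vᶜ hW, root L V hV, root L Vᶜ hW, countablyGenerated_proc V,
    separatesPoints_proc V, countablyGenerated_proc Vᶜ, separatesPoints_proc Vᶜ,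
    logEquiv_roots L V Vᶜ hV hW, ?_⟩
  rintro ⟨R, hR, hrr⟩
  exact not_oplus L a V hV hW R hR hrr

end Pool.Agent.Results.MP_e518dc_lc.LogicNotOplus
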